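import Pool.Agent.H19.STB.Ref
import Pool.Agent.H36.KBX.Coef
import Pool.Agent.H64.STAT.Cb
import Pool.Agent.H89.GEN.PolyA
import Pool.Agent.H98.STB.Alg
import Pool.Agent.H46.MIC.Ev

/-!
# A visible Taylor polynomial is not constant along the lines, closed coordinates

As `ref_cls`, with any closed polynomials `Q` as the three normalised coordinates. `ref_gen`: the
visible polynomials of two independent samples of the same line and window are not near, with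
probability near one. `ref_end`: the same for `J + f (. - x)`, functions of a code of the exact
point, as in the conclusion of `EndStmt`: the total mass of `near` and `not near` is one.
-/

set_option autoImplicit false

namespace Pool.STB

open Finset Real MvPolynomial
open Pool.Agent.H49.Ent Pool.Agent.H32.Dense Pool.STK Pool.KA Pool.KSAT Pool.K2S Pool.PB Pool.S6C
open Pool.GEN Pool.CHT Pool.VIS24
open Pool.LBT (ThrOf)
open Pool.BFL (Pb CB)

variable {m J : ℕ}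

/-! ### Polynomials -/

theorem eval_bnd {τ : Type} (Q : Fin 3 → MvPolynomial τ ℝ) (P : Po) (b : τ → ℝ) :
    eval b (bind₁ Q P) = eval (fun j => eval b (Q j)) P := by
  rw [eval, eval₂Hom_bind₁]
  rfl

theorem deg_bnd {τ : Type} {Q : Fin 3 → MvPolynomial τ ℝ} {KQ : ℕ}
    (hQ : ∀ j, (Q j).totalDegree ≤ KQ) (P : Po) :
    (bind₁ Q P).totalDegree ≤ P.totalDegree * KQ := by
  classical
  conv_lhs => rw [P.as_sum, map_sum]
  refine (totalDegree_finsetSum _ _).trans (Finset.sup_le fun s hs => ?_)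
  rw [bind₁_monomial]
  refine (totalDegree_mul _ _).trans ?_
  rw [totalDegree_C, zero_add]
  refine (totalDegree_finsetProd _ _).trans ?_
  refine le_trans ?_ (Nat.mul_le_mul_right KQ (le_totalDegree hs))
  rw [Finsupp.sum, Finset.sum_mul]
  refine Finset.sum_le_sum fun i _ => ?_
  refine (totalDegree_pow _ _).trans ?_
  exact Nat.mul_le_mul_left _ (hQ i)

theorem dep_bnd {c : ℕ → Fin m} {i : ℕ} {Q : Fin 3 → MvPolynomial (Option (Fin m)) ℝ}
    (hQ : ∀ j, DepC c i (Q j)) (P : Po) : DepC c i (bind₁ Q P) := by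
  intro b b' hn hb
  rw [eval_bnd, eval_bnd]
  have e : (fun j => eval b (Q j)) = fun j => eval b' (Q j) := funext fun j => hQ j b b' hn hb
  rw [e]

theorem pd_bnd {τ : Type} {Q : Fin 3 → MvPolynomial τ ℝ} {P : Po} {b : τ → ℝ} {D Λ : ℝ}
    (hD : ∀ j, |eval (fun k => eval b (Q k)) (pderiv j P)| ≤ D) (a : τ)
    (hΛ : ∀ j, |eval b (pderiv a (Q j))| ≤ Λ) :
    |eval b (pderiv a (bind₁ Q P))| ≤ 3 * (D * Λ) := by
  rw [pd_bind₁, map_sum]
  refine (Finset.abs_sum_le_sum_abs _ _).trans ?_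
  have h1 : ∀ k ∈ (Finset.univ : Finset (Fin 3)),
      |eval b (bind₁ Q (pderiv k P) * pderiv a (Q k))| ≤ D * Λ := by
    intro k _
    rw [map_mul, abs_mul, eval_bnd]
    exact mul_le_mul (hD k) (hΛ k) (abs_nonneg _) ((abs_nonneg _).trans (hD k))
  refine (Finset.sum_le_sum h1).trans ?_
  rw [Finset.sum_const, Finset.card_univ, Fintype.card_fin, nsmul_eq_mul]
  norm_num

/-- Markov's inequality on the unit box. -/
theorem mkv (b : ℕ) : ∃ C : ℝ, 1 ≤ C ∧ ∀ (P : Po) (R : ℝ), P.totalDegree ≤ b →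
    (∀ q : V3, Bx 1 q → |eval q P| ≤ R) → ∀ (j : Fin 3) (r : V3), Bx 1 r →
      |eval r (pderiv j P)| ≤ C * R := by
  obtain ⟨C, hC, h⟩ := Pool.Agent.H36.KBX.coef_bound 3 b
  have hC3 : (0 : ℝ) ≤ (b + 1) ^ 3 * (b * C) := by positivity
  refine ⟨(b + 1) ^ 3 * (b * C) + 1, by linarith, fun P R hP hR j r hr => ?_⟩
  have hR0 : 0 ≤ R := (abs_nonneg _).trans (hR 0 fun i => by simp)
  have h1 : CB P (C * R) := h P R hP hR
  have h2 := Pool.STAT.cb_pderiv (by positivity : 0 ≤ C * R) hP h1 j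
  have h3 := Pool.POLY.abs_eval_le (pderiv j P) (Pool.POLY.totalDegree_pderiv P j hP) h2 le_rfl r hr
  refine h3.trans ?_
  rw [one_pow, mul_one]
  nlinarith

/-- The shift of a polynomial. -/
noncomputable def shf (x : V3) (f : Po) : Po := bind₁ (fun j => MvPolynomial.X j - C (x j)) f

theorem eval_shf (x : V3) (f : Po) (q : V3) : eval q (shf x f) = eval (q - x) f := by
  unfold shf
  rw [eval_bnd]
  congr 1
  congr 1
  funext j
  rw [map_sub, eval_X, eval_C, Pi.sub_apply]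

theorem deg_shf (x : V3) (f : Po) : (shf x f).totalDegree ≤ f.totalDegree := by
  unfold shf
  refine (deg_bnd (KQ := 1) (fun j => ?_) f).trans (by rw [mul_one])
  refine (totalDegree_sub _ _).trans ?_
  rw [totalDegree_C, totalDegree_X]
  simp

/-! ### Two samples of one line -/

variable {θ : ℝ} {S : PCl m} {P : List (Fin m) × Fin m → ℝ → ℝ → ℝ}

/-- **A target over a closed polynomial.** `CG`: a closed polynomial; `Q`: three closed coordinates;
`PP`: a polynomial in these coordinates, a function of the exact point; `CG + mu * PP (Q)` is the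
target at the samples up to `2 ^ (-p)`. The natural boxes are in the unit box of `Q`. -/
structure Rg (F : Fam m J) (c : ℕ → Fin m) (i K KQ w₀ e₁ p : ℕ) (g : ℕ → ℕ) (B : F.Ω → Prop)
    (G : PtT F → ℕ → MvPolynomial (Option (Fin m)) ℝ) {V : Type} (zc : PtT F → V)
    (zc' : LnT F → V) (CG : V → MvPolynomial (Option (Fin m)) ℝ)
    (Q : V → Fin 3 → MvPolynomial (Option (Fin m)) ℝ) (Λ : ℕ → ℝ)
    (PP : PtT F → Po) (mu D : ℝ) : Prop where
  cls : ∀ ω, B ω → zc (ptr F J ω) = zc' (slam F w₀ ω)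
  degC : ∀ v, (CG v).totalDegree ≤ K
  depC : ∀ v, DepC c i (CG v)
  degQ : ∀ v j, (Q v j).totalDegree ≤ KQ
  depQ : ∀ v j, DepC c i (Q v j)
  degP : ∀ y, (PP y).totalDegree * KQ ≤ K
  mu0 : 0 ≤ mu
  pos : ∀ ω, B ω → |F.x ω (c i) - (eval (bt F ω) (CG (zc (ptr F J ω))) +
    mu * eval (fun j => eval (bt F ω) (Q (zc (ptr F J ω)) j)) (PP (ptr F J ω)))| ≤ 1 / 2 ^ p
  lip : ∀ ω, B ω → ∀ b : Option (Fin m) → ℝ, NBx c (G (ptr F J ω)) g w₀ (F.t ω) i b → ∀ l < i,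
    |eval b (pderiv (some (c l)) (CG (zc (ptr F J ω))))| ≤
      2 ^ (e₁ + nlp (fun j => if j < i then g j else p) l i)
  lipQ : ∀ ω, B ω → ∀ b : Option (Fin m) → ℝ, NBx c (G (ptr F J ω)) g w₀ (F.t ω) i b → ∀ l < i,
    ∀ j, |eval b (pderiv (some (c l)) (Q (zc (ptr F J ω)) j))| ≤ Λ l
  box : ∀ ω, B ω → ∀ b : Option (Fin m) → ℝ, NBx c (G (ptr F J ω)) g w₀ (F.t ω) i b →
    Bx 1 (fun j => eval b (Q (zc (ptr F J ω)) j))
  der : ∀ ω, B ω → ∀ r : V3, Bx 1 r → ∀ j, |eval r (pderiv j (PP (ptr F J ω)))| ≤ D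
  num : ∀ l < i, 3 * (mu * (D * Λ l)) ≤ 2 ^ (e₁ + nlp (fun j => if j < i then g j else p) l i)

/-- **The visible polynomials of two independent samples of one line and window are not near**, with
probability near one, for every law with a bounded density on the event. -/
theorem ref_gen (hP : ThrOf (chsys m θ) S P) (c : ℕ → Fin m) (i K : ℕ)
    (a w : ℚ) (e h : ℝ) (hw : 0 ≤ w) (hwa : w ≤ a) (ha : a ≤ 1) (he : e < θ * w) (hh : 0 < h)
    (h1 : bet P c i a w + h ≤ 1) :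
    ∃ δ : ℝ, 0 < δ ∧ Bas S (fun J F A => ∀ (KQ w₀ e₁ p : ℕ) (Kv g : ℕ → ℕ)
      (G : PtT F → ℕ → MvPolynomial (Option (Fin m)) ℝ)
      (H : LnT F → ℕ → MvPolynomial (Option (Fin m)) ℝ) (V : Type) (zc : PtT F → V)
      (zc' : LnT F → V) (CG : V → MvPolynomial (Option (Fin m)) ℝ)
      (Q : V → Fin 3 → MvPolynomial (Option (Fin m)) ℝ) (Λ : ℕ → ℝ)
      (PP : PtT F → Po) (mu D rho : ℝ),
      w₀ ≤ ⌊(w : ℝ) * J⌋₊ → e₁ + 1 ≤ ⌊e * J⌋₊ → (∀ l, Kv l ≤ K) →
      (∀ l < i, g l ≤ J) → p ≤ J → ⌊(bet P c i a w + h) * J⌋₊ + w₀ ≤ p + ⌊(a : ℝ) * J⌋₊ →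
      ∀ (B : F.Ω → Prop), Sub B A → ChOK F c i Kv w₀ w₀ (e₁ + 1) g B G H →
      Rg F c i K KQ w₀ e₁ p g B G zc zc' CG Q Λ PP mu D → mu * rho ≤ 1 / 2 ^ p →
      ∀ (q : F.Ω → ℝ) (M : ℝ), IsLaw q → 0 ≤ M →
      (∀ ω, 0 < q ω → B ω) → (∀ ω, q ω * Pe F.p A ≤ M * F.p ω) →
      Pb (glue q q (slam F w₀) (slam F w₀)) (fun x => ∀ r : V3, Bx 1 r →
        |eval r (PP (ptr F J x.1)) - eval r (PP (ptr F J x.2))| ≤ rho) ≤
          M * Real.exp (-(δ * J))) := by
  classical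
  obtain ⟨δ, hδ, hB⟩ := vis_cls hP c i K a w e h hw hwa ha he hh h1
  refine ⟨δ, hδ, Bas.mono 0 hB ?_⟩
  intro J _ F A hv KQ w₀ e₁ p Kv g G H V zc zc' CG Q Λ PP mu D rho k1 k2 k3 k4 k5 k6 B hBA hch R
    hmu q M hq hM hqB hqM
  have hwa' : ⌊(w : ℝ) * J⌋₊ ≤ ⌊(a : ℝ) * J⌋₊ :=
    Nat.floor_le_floor (mul_le_mul_of_nonneg_right (by exact_mod_cast hwa) (Nat.cast_nonneg J))
  -- the visible label
  obtain ⟨Gi, hGi⟩ : ∃ Gi : PtT F → MvPolynomial (Option (Fin m)) ℝ, Gi = fun y =>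
      CG (zc y) + C mu * bind₁ (Q (zc y)) (PP y) := ⟨_, rfl⟩
  have heGi : ∀ (y : PtT F) (b : Option (Fin m) → ℝ), eval b (Gi y) =
      eval b (CG (zc y)) + mu * eval (fun j => eval b (Q (zc y) j)) (PP y) := by
    intro y b
    rw [hGi]
    show eval b (CG (zc y) + C mu * bind₁ (Q (zc y)) (PP y)) = _
    rw [map_add, map_mul, eval_C, eval_bnd]
  have hVP : VPol F c i K w₀ (e₁ + 1) p g G B Gi := by
    refine ⟨fun y => ?_, fun y => ?_, fun ω hω => ?_, fun ω hω b hb l hl => ?_⟩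
    · rw [hGi]
      refine (totalDegree_add _ _).trans (max_le (R.degC _) ?_)
      refine (totalDegree_mul _ _).trans ?_
      rw [totalDegree_C, zero_add]
      exact (deg_bnd (R.degQ (zc y)) (PP y)).trans (R.degP y)
    · intro b b' hn hb
      rw [heGi, heGi, R.depC _ b b' hn hb]
      have h2 := dep_bnd (R.depQ (zc y)) (PP y) b b' hn hb
      rw [eval_bnd, eval_bnd] at h2
      rw [h2]
    · rw [heGi]
      exact R.pos ω hω
    · have e1 : pderiv (some (c l)) (Gi (ptr F J ω)) =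
          pderiv (some (c l)) (CG (zc (ptr F J ω))) +
            C mu * pderiv (some (c l)) (bind₁ (Q (zc (ptr F J ω))) (PP (ptr F J ω))) := by
        rw [hGi]
        show pderiv (some (c l)) (CG (zc (ptr F J ω)) +
          C mu * bind₁ (Q (zc (ptr F J ω))) (PP (ptr F J ω))) = _
        rw [map_add, pderiv_C_mul]
      rw [e1, map_add, map_mul, eval_C]
      have h2 := R.lip ω hω b hb l hl
      have h3 := pd_bnd (Q := Q (zc (ptr F J ω))) (P := PP (ptr F J ω)) (b := b)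
        (fun j => R.der ω hω _ (R.box ω hω b hb) j) (some (c l)) (R.lipQ ω hω b hb l hl)
      have h4 : |mu * eval b (pderiv (some (c l))
          (bind₁ (Q (zc (ptr F J ω))) (PP (ptr F J ω))))| ≤
            2 ^ (e₁ + nlp (fun j => if j < i then g j else p) l i) := by
        rw [abs_mul, abs_of_nonneg R.mu0]
        calc mu * _ ≤ mu * (3 * (D * Λ l)) := mul_le_mul_of_nonneg_left h3 R.mu0
          _ = 3 * (mu * (D * Λ l)) := by ring
          _ ≤ _ := R.num l hl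
      have h6 : (2 : ℝ) ^ (e₁ + 1 + nlp (fun j => if j < i then g j else p) l i) =
          2 * 2 ^ (e₁ + nlp (fun j => if j < i then g j else p) l i) := by
        rw [show e₁ + 1 + nlp (fun j => if j < i then g j else p) l i =
          e₁ + nlp (fun j => if j < i then g j else p) l i + 1 by omega, pow_succ]
        ring
      rw [h6]
      exact (abs_add_le _ _).trans (by linarith)
  have h2 := hv w₀ w₀ (e₁ + 1) p Kv g G H Gi le_rfl (k1.trans hwa') k1 k2 k3 k4 k5 k6 B hBA hch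
    hVP q M hq hM hqB hqM
  refine le_trans ?_ h2
  rw [Pool.TC.Pb_eq_Pe, show Pool.KM7.P2 q (slam F w₀) = glue q q (slam F w₀) (slam F w₀) from rfl]
  rw [Pool.K2S.Pe_eq, Pool.K2S.Pe_eq]
  refine Finset.sum_le_sum fun x _ => ?_
  have hx0 : 0 ≤ glue q q (slam F w₀) (slam F w₀) x := glue_nonneg hq.nonneg hq.nonneg x
  by_cases h3 : ∀ r : V3, Bx 1 r → |eval r (PP (ptr F J x.1)) - eval r (PP (ptr F J x.2))| ≤ rho
  swap
  · rw [if_neg h3]
    split_ifs
    exacts [hx0, le_rfl]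
  rw [if_pos h3]
  rcases hx0.eq_or_lt with h4 | h4
  · rw [← h4]
    split_ifs <;> exact le_rfl
  obtain ⟨q1, q2, q3⟩ := (glue_pos_iff hq.nonneg hq.nonneg x).1 h4
  rw [if_pos]
  intro b hb
  have e1 : zc (ptr F J x.1) = zc (ptr F J x.2) := by
    rw [R.cls _ (hqB _ q1), R.cls _ (hqB _ q2), q3]
  rw [heGi, heGi, ← e1]
  have h5 := h3 _ (R.box x.1 (hqB _ q1) b hb)
  have e2 : eval b (CG (zc (ptr F J x.1))) +
      mu * eval (fun j => eval b (Q (zc (ptr F J x.1)) j)) (PP (ptr F J x.1)) -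
      (eval b (CG (zc (ptr F J x.1))) +
      mu * eval (fun j => eval b (Q (zc (ptr F J x.1)) j)) (PP (ptr F J x.2))) =
      mu * (eval (fun j => eval b (Q (zc (ptr F J x.1)) j)) (PP (ptr F J x.1)) -
        eval (fun j => eval b (Q (zc (ptr F J x.1)) j)) (PP (ptr F J x.2))) := by ring
  rw [e2, abs_mul, abs_of_nonneg R.mu0]
  exact (mul_le_mul_of_nonneg_left h5 R.mu0).trans hmu

/-! ### The end -/

/-- The polynomial `J + f (. - x)` of a code of the exact point. -/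
noncomputable def PPz {F : Fam m J} {Z : Type} (zp : PtT F → Z) (x : Z → V3) (Jz f : Z → Po)
    (y : PtT F) : Po := Jz (zp y) + shf (x (zp y)) (f (zp y))

theorem eval_PPz {F : Fam m J} {Z : Type} (zp : PtT F → Z) (x : Z → V3) (Jz f : Z → Po)
    (y : PtT F) (q : V3) :
    eval q (PPz zp x Jz f y) = eval q (Jz (zp y)) + eval (q - x (zp y)) (f (zp y)) := by
  unfold PPz
  rw [map_add, eval_shf]

/-- **The data of the refutation.** `zp`: a code of the exact point; `x`: a position; `Jz`: a polynomial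
of degree at most `b` in the closed coordinates `Q`, such that `CG + mu * Jz (Q)` is the target. -/
structure Re (F : Fam m J) (c : ℕ → Fin m) (i K KQ w₀ e₁ p b : ℕ) (g : ℕ → ℕ) (B : F.Ω → Prop)
    (G : PtT F → ℕ → MvPolynomial (Option (Fin m)) ℝ) {V : Type} (zc : PtT F → V)
    (zc' : LnT F → V) (CG : V → MvPolynomial (Option (Fin m)) ℝ)
    (Q : V → Fin 3 → MvPolynomial (Option (Fin m)) ℝ) (Λ : ℕ → ℝ)
    {Z : Type} (zp : PtT F → Z) (x : Z → V3) (Jz : Z → Po) (mu KJ ε : ℝ) : Prop where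
  cls : ∀ ω, B ω → zc (ptr F J ω) = zc' (slam F w₀ ω)
  degC : ∀ v, (CG v).totalDegree ≤ K
  depC : ∀ v, DepC c i (CG v)
  degQ : ∀ v j, (Q v j).totalDegree ≤ KQ
  depQ : ∀ v j, DepC c i (Q v j)
  bK : b * KQ ≤ K
  mu0 : 0 ≤ mu
  pos : ∀ ω, B ω → |F.x ω (c i) - (eval (bt F ω) (CG (zc (ptr F J ω))) +
    mu * eval (fun j => eval (bt F ω) (Q (zc (ptr F J ω)) j)) (Jz (zp (ptr F J ω))))| ≤
      1 / 2 ^ (p + 1)
  near : ∀ ω, B ω → Bx ε (fun j => eval (bt F ω) (Q (zc (ptr F J ω)) j) - x (zp (ptr F J ω)) j)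
  lip : ∀ ω, B ω → ∀ b : Option (Fin m) → ℝ, NBx c (G (ptr F J ω)) g w₀ (F.t ω) i b → ∀ l < i,
    |eval b (pderiv (some (c l)) (CG (zc (ptr F J ω))))| ≤
      2 ^ (e₁ + nlp (fun j => if j < i then g j else p) l i)
  lipQ : ∀ ω, B ω → ∀ b : Option (Fin m) → ℝ, NBx c (G (ptr F J ω)) g w₀ (F.t ω) i b → ∀ l < i,
    ∀ j, |eval b (pderiv (some (c l)) (Q (zc (ptr F J ω)) j))| ≤ Λ l
  box : ∀ ω, B ω → ∀ b : Option (Fin m) → ℝ, NBx c (G (ptr F J ω)) g w₀ (F.t ω) i b →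
    Bx 1 (fun j => eval b (Q (zc (ptr F J ω)) j))
  x1 : ∀ r, Bx 1 (x r)
  J1 : ∀ r, (Jz r).totalDegree ≤ b ∧ ∀ q, Bx 1 q → |eval q (Jz r)| ≤ KJ

/-- **The end.** If `f` is a homogeneous polynomial of degree `b`, a function of the code, then the
polynomials `J + f (. - x)` of two samples of a line and window are not near: with probability near
one, for every law with a bounded density on the event. -/
theorem ref_end (b : ℕ) (hb : 1 ≤ b) : ∃ C₀ : ℝ, 1 ≤ C₀ ∧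
    ∀ (m : ℕ) (θ : ℝ) (S : PCl m) (P : List (Fin m) × Fin m → ℝ → ℝ → ℝ)
    (_ : ThrOf (chsys m θ) S P) (c : ℕ → Fin m) (i K : ℕ)
    (a w : ℚ) (e h : ℝ) (_ : 0 ≤ w) (_ : w ≤ a) (_ : a ≤ 1) (_ : e < θ * w) (_ : 0 < h)
    (_ : bet P c i a w + h ≤ 1),
    ∃ δ : ℝ, 0 < δ ∧ Bas S (fun J F A => ∀ (KQ w₀ e₁ p : ℕ) (Kv g : ℕ → ℕ)
      (G : PtT F → ℕ → MvPolynomial (Option (Fin m)) ℝ)
      (H : LnT F → ℕ → MvPolynomial (Option (Fin m)) ℝ) (V : Type) (zc : PtT F → V)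
      (zc' : LnT F → V) (CG : V → MvPolynomial (Option (Fin m)) ℝ)
      (Q : V → Fin 3 → MvPolynomial (Option (Fin m)) ℝ) (Λ : ℕ → ℝ)
      (Z : Type) (zp : PtT F → Z) (x : Z → V3) (Jz f : Z → Po) (mu KJ Kf ε rho : ℝ),
      w₀ ≤ ⌊(w : ℝ) * J⌋₊ → e₁ + 1 ≤ ⌊e * J⌋₊ → (∀ l, Kv l ≤ K) →
      (∀ l < i, g l ≤ J) → p ≤ J → ⌊(bet P c i a w + h) * J⌋₊ + w₀ ≤ p + ⌊(a : ℝ) * J⌋₊ →
      ∀ (B : F.Ω → Prop), Sub B A → ChOK F c i Kv w₀ w₀ (e₁ + 1) g B G H →
      Re F c i K KQ w₀ e₁ p b g B G zc zc' CG Q Λ zp x Jz mu KJ ε →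
      (∀ r, Hb b Kf (f r)) → 0 < ε → ε ≤ 1 → mu * (Kf * ε) ≤ 1 / 2 ^ (p + 1) →
      (∀ l < i, (0 ≤ Λ l) ∧ C₀ * (mu * (KJ + Kf) * Λ l) ≤
        2 ^ (e₁ + nlp (fun j => if j < i then g j else p) l i)) → mu * rho ≤ 1 / 2 ^ p →
      ∀ (q : F.Ω → ℝ) (M : ℝ), IsLaw q → 0 ≤ M →
      (∀ ω, 0 < q ω → B ω) → (∀ ω, q ω * Pe F.p A ≤ M * F.p ω) →
      1 - M * Real.exp (-(δ * J)) ≤ Pb (glue q q (slam F w₀) (slam F w₀)) (fun v =>
        ¬ ∀ r : V3, Bx 1 r →
        |(eval r (Jz (zp (ptr F J v.1))) + eval (r - x (zp (ptr F J v.1))) (f (zp (ptr F J v.1)))) -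
          (eval r (Jz (zp (ptr F J v.2))) + eval (r - x (zp (ptr F J v.2)))
            (f (zp (ptr F J v.2))))| ≤ rho)) := by
  classical
  obtain ⟨C₁, hC₁, hmk⟩ := mkv b
  refine ⟨3 * (C₁ * 2 ^ b), ?_, fun m θ S P hP c i K a w e h hw hwa ha he hh h1 => ?_⟩
  · have h2 : (1 : ℝ) ≤ 2 ^ b := one_le_pow₀ one_le_two
    nlinarith
  obtain ⟨δ, hδ, hB⟩ := ref_gen hP c i K a w e h hw hwa ha he hh h1
  refine ⟨δ, hδ, Bas.mono 0 hB ?_⟩
  intro J _ F A hv KQ w₀ e₁ p Kv g G H V zc zc' CG Q Λ Z zp x Jz f mu KJ Kf ε rho k1 k2 k3 k4 k5 k6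
    B hBA hch R hf hε hε1 hnf hnum hmu q M hq hM hqB hqM
  obtain ⟨ω₀, -⟩ : ∃ ω, 0 < q ω := by
    by_contra hcon
    push Not at hcon
    have h2 : ∑ ω, q ω ≤ 0 := Finset.sum_nonpos fun ω _ => hcon ω
    rw [hq.sum_one] at h2
    linarith
  obtain ⟨D, hD⟩ : ∃ D : ℝ, D = C₁ * (KJ + 2 ^ b * Kf) := ⟨_, rfl⟩
  have hev : ∀ (y : PtT F) (r : V3), Bx 1 r → |eval r (PPz zp x Jz f y)| ≤ KJ + 2 ^ b * Kf := by
    intro y r hr
    rw [eval_PPz]
    refine (abs_add_le _ _).trans (add_le_add ((R.J1 _).2 r hr) ?_)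
    refine hom_bd (hf (zp y)) two_pos fun j => ?_
    rw [Pi.sub_apply]
    have h2 := hr j
    have h3 := R.x1 (zp y) j
    calc |r j - x (zp y) j| ≤ |r j| + |x (zp y) j| := abs_sub _ _
      _ ≤ 2 := by linarith
  have hdg : ∀ y : PtT F, (PPz zp x Jz f y).totalDegree ≤ b := by
    intro y
    refine (totalDegree_add _ _).trans (max_le (R.J1 _).1 ?_)
    exact (deg_shf _ _).trans (hf _).hom.totalDegree_le
  have hR : Rg F c i K KQ w₀ e₁ p g B G zc zc' CG Q Λ (PPz zp x Jz f) mu D := by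
    refine ⟨R.cls, R.degC, R.depC, R.degQ, R.depQ, fun y => ?_, R.mu0, fun ω hω => ?_, R.lip,
      R.lipQ, R.box, fun ω hω r hr j => ?_, fun l hl => ?_⟩
    · exact (Nat.mul_le_mul_right _ (hdg y)).trans R.bK
    · rw [eval_PPz]
      obtain ⟨v, hv1⟩ : ∃ v : V3, v = (fun j => eval (bt F ω) (Q (zc (ptr F J ω)) j)) -
          x (zp (ptr F J ω)) := ⟨_, rfl⟩
      have h2 : |eval v (f (zp (ptr F J ω)))| ≤ Kf * ε := by
        have h3 : Bx ε v := by
          intro j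
          rw [hv1, Pi.sub_apply]
          exact R.near ω hω j
        have h4 := hom_bd (hf (zp (ptr F J ω))) hε h3
        have h5 : 0 ≤ Kf := (abs_nonneg _).trans ((hf (zp (ptr F J ω))).bd 0 fun j => by simp)
        have h6 : ε ^ b ≤ ε := by
          calc ε ^ b ≤ ε ^ 1 := pow_le_pow_of_le_one hε.le hε1 hb
            _ = ε := pow_one ε
        calc |eval v (f (zp (ptr F J ω)))| ≤ ε ^ b * Kf := h4
          _ ≤ ε * Kf := mul_le_mul_of_nonneg_right h6 h5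
          _ = Kf * ε := mul_comm _ _
      have h7 := R.pos ω hω
      rw [← hv1]
      have h8 : |mu * eval v (f (zp (ptr F J ω)))| ≤ 1 / 2 ^ (p + 1) := by
        rw [abs_mul, abs_of_nonneg R.mu0]
        exact (mul_le_mul_of_nonneg_left h2 R.mu0).trans hnf
      have h9 : (1 : ℝ) / 2 ^ p = 1 / 2 ^ (p + 1) + 1 / 2 ^ (p + 1) := by
        rw [pow_succ]
        field_simp
        norm_num
      rw [h9]
      have h10 := abs_sub (F.x ω (c i) - (eval (bt F ω) (CG (zc (ptr F J ω))) +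
        mu * eval (fun j => eval (bt F ω) (Q (zc (ptr F J ω)) j)) (Jz (zp (ptr F J ω)))))
        (mu * eval v (f (zp (ptr F J ω))))
      refine le_trans (le_of_eq ?_) (h10.trans (add_le_add h7 h8))
      congr 1
      ring
    · rw [hD]
      exact hmk _ _ (hdg _) (fun q hq => hev _ q hq) j r hr
    · obtain ⟨h2, h3⟩ := hnum l hl
      refine le_trans ?_ h3
      have hJ0 : 0 ≤ KJ := (abs_nonneg _).trans ((R.J1 (zp (ptr F J ω₀))).2 0 fun j => by simp)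
      have h4 : (1 : ℝ) ≤ 2 ^ b := one_le_pow₀ one_le_two
      have h5 : KJ + 2 ^ b * Kf ≤ 2 ^ b * (KJ + Kf) := by nlinarith
      rw [hD]
      calc 3 * (mu * (C₁ * (KJ + 2 ^ b * Kf) * Λ l))
          = 3 * (mu * Λ l * C₁) * (KJ + 2 ^ b * Kf) := by ring
        _ ≤ 3 * (mu * Λ l * C₁) * (2 ^ b * (KJ + Kf)) := by
            refine mul_le_mul_of_nonneg_left h5 ?_
            have := R.mu0
            positivity
        _ = _ := by ring
  have h2 := hv KQ w₀ e₁ p Kv g G H V zc zc' CG Q Λ (PPz zp x Jz f) mu D rho k1 k2 k3 k4 k5 k6 B hBA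
    hch hR hmu q M hq hM hqB hqM
  have hgl : ∑ v, glue q q (slam F w₀) (slam F w₀) v = 1 := by
    rw [sum_glue hq.nonneg fun _ => rfl, hq.sum_one]
  have h4 := Pool.MIC.Pb_not hgl (fun v => ∀ r : V3, Bx 1 r →
      |(eval r (Jz (zp (ptr F J v.1))) + eval (r - x (zp (ptr F J v.1))) (f (zp (ptr F J v.1)))) -
        (eval r (Jz (zp (ptr F J v.2))) + eval (r - x (zp (ptr F J v.2)))
          (f (zp (ptr F J v.2))))| ≤ rho)
  have h3 : Pb (glue q q (slam F w₀) (slam F w₀)) (fun v => ∀ r : V3, Bx 1 r →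
      |(eval r (Jz (zp (ptr F J v.1))) + eval (r - x (zp (ptr F J v.1))) (f (zp (ptr F J v.1)))) -
        (eval r (Jz (zp (ptr F J v.2))) + eval (r - x (zp (ptr F J v.2)))
          (f (zp (ptr F J v.2))))| ≤ rho) ≤ M * Real.exp (-(δ * J)) := by
    refine le_trans (le_of_eq ?_) h2
    congr 1
    funext v
    simp only [eval_PPz]
  linarith only [h3, h4]

end Pool.STB
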