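import Pool.Agent.H19.STB.RefG

/-!
# The chains of lines in a class: the contradiction

`stb_false`: in a class with the thresholds of the chain labels, the data `ChH` of the chains of lines
and the data `Re` of the refutation on the same event are impossible (from `EndStmt`).
-/

set_option autoImplicit false

namespace Pool.STB

open Finset Real MvPolynomial
open Pool.Agent.H49.Ent Pool.Agent.H32.Dense Pool.STK Pool.KA Pool.KSAT Pool.K2S Pool.PB Pool.S6C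
open Pool.GEN Pool.CHT Pool.VIS24
open Pool.LBT (ThrOf)
open Pool.BFL (Pb CB)

/-- **The contradiction.** `q`: a law with a bounded density on an event; the line is `slam F w₀`, the
record `z` is a function of the exact point. -/
theorem stb_false (hE : EndStmt) (b : ℕ) (h κ : ℝ) (hb : 1 ≤ b) (hh : 0 < h) (hκ : 0 < κ) :
    ∃ γ γ₀ e₀ c' R C₀ : ℝ, ∃ M₀ : ℕ, 0 < γ ∧ 0 < γ₀ ∧ 0 < e₀ ∧ 0 < c' ∧ 0 < R ∧ 1 ≤ C₀ ∧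
    ∀ (m : ℕ) (θ : ℝ) (S : PCl m) (P : List (Fin m) × Fin m → ℝ → ℝ → ℝ)
    (_ : ThrOf (chsys m θ) S P) (c : ℕ → Fin m) (i K : ℕ)
    (a w : ℚ) (e η Md : ℝ) (_ : 0 ≤ w) (_ : w ≤ a) (_ : a ≤ 1) (_ : e < θ * w) (_ : 0 < η)
    (_ : bet P c i a w + η ≤ 1) (_ : 0 ≤ Md),
    Bas S (fun J F A => ∀ (KQ w₀ e₁ p M : ℕ) (Kv g : ℕ → ℕ)
      (G : PtT F → ℕ → MvPolynomial (Option (Fin m)) ℝ)
      (H : LnT F → ℕ → MvPolynomial (Option (Fin m)) ℝ) (V : Type) (zc : PtT F → V)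
      (zc' : LnT F → V) (CG : V → MvPolynomial (Option (Fin m)) ℝ)
      (Q : V → Fin 3 → MvPolynomial (Option (Fin m)) ℝ) (Λ : ℕ → ℝ)
      (Z Y 𝒟 : Type) (zp : PtT F → Z) (y : F.Ω → Y) (t : F.Ω → ℤ) (D : LnT F → 𝒟) (X : 𝒟 → V3)
      (Φ : 𝒟 → Po) (x : Z → V3) (Jz : Z → Po) (mu ε : ℝ) (B : F.Ω → Prop) (q : F.Ω → ℝ),
      M₀ ≤ M → w₀ ≤ ⌊(w : ℝ) * J⌋₊ → e₁ + 1 ≤ ⌊e * J⌋₊ → (∀ l, Kv l ≤ K) →
      (∀ l < i, g l ≤ J) → p ≤ J → ⌊(bet P c i a w + η) * J⌋₊ + w₀ ≤ p + ⌊(a : ℝ) * J⌋₊ →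
      Sub B A → ChOK F c i Kv w₀ w₀ (e₁ + 1) g B G H →
      Re F c i K KQ w₀ e₁ p b g B G zc zc' CG Q Λ zp x Jz mu ((M : ℝ) ^ e₀) ε →
      0 < ε → ε ≤ 1 → mu * ((M : ℝ) ^ κ * ε) ≤ 1 / 2 ^ (p + 1) →
      (∀ l < i, (0 ≤ Λ l) ∧ C₀ * (mu * ((M : ℝ) ^ e₀ + (M : ℝ) ^ κ) * Λ l) ≤
        2 ^ (e₁ + nlp (fun j => if j < i then g j else p) l i)) →
      mu * (M : ℝ) ^ (-γ) ≤ 1 / 2 ^ p →
      (∀ ω, 0 < q ω → B ω) → (∀ ω, q ω * Pe F.p A ≤ Md * F.p ω) →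
      ChH q (slam F w₀) (fun ω => zp (ptr F J ω)) y t D X Φ x Jz b M ((M : ℝ) ^ e₀)
        (e₀ * Real.log M) h R ((M : ℝ) ^ (-γ₀)) c' → False) := by
  classical
  obtain ⟨γ, γ₀, e₀, c', R, M₀, hγ, hγ₀, he₀, hc', hR, hEnd⟩ :=
    hE b h (1 / 4) κ hb hh (by norm_num) hκ
  obtain ⟨C₀, hC₀, hRef⟩ := ref_end b hb
  refine ⟨γ, γ₀, e₀, c', R, C₀, M₀, hγ, hγ₀, he₀, hc', hR, hC₀, ?_⟩
  intro m θ S P hP c i K a w e η Md hw hwa ha he hη h1 hMd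
  obtain ⟨δ, hδ, hB⟩ := hRef m θ S P hP c i K a w e η hw hwa ha he hη h1
  obtain ⟨J₁, hJ₁⟩ := exists_nat_gt (4 * Md / δ)
  refine Bas.mono J₁ hB ?_
  intro J hJ F A hv KQ w₀ e₁ p M Kv g G H V zc zc' CG Q Λ Z Y 𝒟 zp y t D X Φ x Jz mu ε B q k0 k1 k2
    k3 k4 k5 k6 hBA hch hRe hε hε1 k7 k8 k9 hqB hqM hCh
  obtain ⟨f, hf, hPb⟩ := hEnd M k0 F.Ω (LnT F) Z Y 𝒟 q (slam F w₀) (fun ω => zp (ptr F J ω)) y t D X
    Φ x Jz hCh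
  have h2 := hv KQ w₀ e₁ p Kv g G H V zc zc' CG Q Λ Z zp x Jz f mu _ _ ε ((M : ℝ) ^ (-γ)) k1 k2 k3 k4
    k5 k6 B hBA hch hRe hf hε hε1 k7 k8 k9 q Md hCh.law hMd hqB hqM
  have h3 : Md * Real.exp (-(δ * J)) ≤ 1 / 4 := by
    have hJ' : (J₁ : ℝ) ≤ J := by exact_mod_cast hJ
    have h4 : 4 * Md / δ < J := lt_of_lt_of_le hJ₁ hJ'
    rw [div_lt_iff₀ hδ] at h4
    have h5 : δ * J + 1 ≤ Real.exp (δ * J) := Real.add_one_le_exp _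
    rw [Real.exp_neg, ← div_eq_mul_inv, div_le_iff₀ (Real.exp_pos _)]
    nlinarith
  have h6 := h2.trans hPb
  linarith

end Pool.STB
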