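import Pool.Agent.H98.STB.S
import Pool.Agent.H24.D2.Vis
import Pool.Agent.H30.TC.Cd

/-!
# A visible Taylor polynomial is not constant along the lines

`nq`: the normalised time and the normalised coordinates `c 0`, `c 1`, with a centre and a length.
`s3`: a polynomial in these variables, as a polynomial in the time and in the coordinates.
`ref_cls`: let the target be `CG + mu * PP` up to `2 ^ (-p)`, where `CG` is closed and `PP` is a
function of the exact point; if `p` is above the threshold of the balls, then the polynomials `PP` of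
two independent samples of the same line and window are not near, with probability near one.
`ref_end`: the form in which this refutes the conclusion of `EndStmt`.
-/

set_option autoImplicit false

namespace Pool.STB

open Finset Real MvPolynomial
open Pool.Agent.H49.Ent Pool.Agent.H32.Dense Pool.STK Pool.KA Pool.KSAT Pool.K2S Pool.PB Pool.S6C
open Pool.GEN Pool.CHT Pool.VIS24
open Pool.LBT (ThrOf)
open Pool.BFL (Pb)

variable {m J : ℕ}

/-! ### Normalised polynomials -/

/-- The time and the places `0` and `1`. -/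
def pl3 (c : ℕ → Fin m) (j : Fin 3) : Option (Fin m) :=
  if j = 0 then none else if j = 1 then some (c 0) else some (c 1)

/-- The normalised time and positions. -/
noncomputable def nq (c : ℕ → Fin m) (ctr : V3) (lam : ℝ) (b : Option (Fin m) → ℝ) : V3 :=
  fun j => (b (pl3 c j) - ctr j) / lam

/-- A polynomial in the normalised variables as a polynomial in the coordinates. -/
noncomputable def s3 (c : ℕ → Fin m) (ctr : V3) (lam : ℝ) (P : Po) :
    MvPolynomial (Option (Fin m)) ℝ :=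
  bind₁ (fun j => C (1 / lam) * (X (pl3 c j) - C (ctr j))) P

theorem eval_s3 (c : ℕ → Fin m) (ctr : V3) (lam : ℝ) (P : Po) (b : Option (Fin m) → ℝ) :
    eval b (s3 c ctr lam P) = eval (nq c ctr lam b) P := by
  unfold s3
  rw [eval, eval₂Hom_bind₁]
  congr 1
  congr 1
  funext j
  show eval b (C (1 / lam) * (X (pl3 c j) - C (ctr j))) = nq c ctr lam b j
  rw [map_mul, map_sub, eval_C, eval_C, eval_X]
  unfold nq
  ring

theorem deg_s3 (c : ℕ → Fin m) (ctr : V3) (lam : ℝ) (P : Po) :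
    (s3 c ctr lam P).totalDegree ≤ P.totalDegree := by
  classical
  have hf : ∀ j, (C (1 / lam) * (X (pl3 c j) - C (ctr j)) :
      MvPolynomial (Option (Fin m)) ℝ).totalDegree ≤ 1 := by
    intro j
    refine (totalDegree_mul _ _).trans ?_
    rw [totalDegree_C, zero_add]
    refine (totalDegree_sub _ _).trans ?_
    rw [totalDegree_C, totalDegree_X]
    simp
  unfold s3
  conv_lhs => rw [P.as_sum, map_sum]
  refine (totalDegree_finsetSum _ _).trans (Finset.sup_le fun s hs => ?_)
  rw [bind₁_monomial]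
  refine (totalDegree_mul _ _).trans ?_
  rw [totalDegree_C, zero_add]
  refine (totalDegree_finsetProd _ _).trans ?_
  refine le_trans ?_ (le_totalDegree hs)
  rw [Finsupp.sum]
  refine Finset.sum_le_sum fun i _ => ?_
  refine (totalDegree_pow _ _).trans ?_
  have := hf i
  nlinarith

theorem dep_s3 {c : ℕ → Fin m} {i : ℕ} (hi : 2 ≤ i) (ctr : V3) (lam : ℝ) (P : Po) :
    DepC c i (s3 c ctr lam P) := by
  intro b b' hn hb
  rw [eval_s3, eval_s3]
  have e : nq c ctr lam b = nq c ctr lam b' := by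
    funext j
    unfold nq pl3
    split_ifs
    · rw [hn]
    · rw [hb 0 (by omega)]
    · rw [hb 1 (by omega)]
  rw [e]

/-- The derivative of a polynomial in affine variables. -/
theorem pd_bind₁ {σ τ : Type} [Fintype σ] (f : σ → MvPolynomial τ ℝ) (P : MvPolynomial σ ℝ)
    (a : τ) : pderiv a (bind₁ f P) = ∑ k, bind₁ f (pderiv k P) * pderiv a (f k) := by
  classical
  induction P using MvPolynomial.induction_on with
  | C r =>
    rw [bind₁_C_right, pderiv_C]
    symm
    refine Finset.sum_eq_zero fun k _ => ?_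
    rw [pderiv_C, map_zero, zero_mul]
  | add P Q hP hQ =>
    rw [map_add, map_add, hP, hQ, ← Finset.sum_add_distrib]
    exact Finset.sum_congr rfl fun k _ => by rw [map_add, map_add, add_mul]
  | mul_X P i hP =>
    rw [map_mul, bind₁_X_right, pderiv_mul, hP]
    have h1 : ∀ k, bind₁ f (pderiv k (P * X i)) * pderiv a (f k) =
        (bind₁ f (pderiv k P) * pderiv a (f k)) * f i +
          (if i = k then bind₁ f P * pderiv a (f i) else 0) := by
      intro k
      rw [pderiv_mul, map_add, map_mul, map_mul, bind₁_X_right]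
      by_cases h : i = k
      · subst h
        rw [pderiv_X_self, map_one, if_pos rfl]
        ring
      · rw [pderiv_X_of_ne h, map_zero, if_neg h]
        ring
    simp_rw [h1]
    rw [Finset.sum_add_distrib, Finset.sum_mul, Finset.sum_ite_eq, if_pos (Finset.mem_univ _)]

theorem pd_s3 {c : ℕ → Fin m} {ctr : V3} {lam D : ℝ} (hlam : 0 < lam) {P : Po}
    {b : Option (Fin m) → ℝ} (hD : ∀ j, |eval (nq c ctr lam b) (pderiv j P)| ≤ D)
    (l : Option (Fin m)) : |eval b (pderiv l (s3 c ctr lam P))| ≤ 3 * (D / lam) := by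
  classical
  unfold s3
  rw [pd_bind₁, map_sum]
  refine (Finset.abs_sum_le_sum_abs _ _).trans ?_
  have h1 : ∀ k ∈ (Finset.univ : Finset (Fin 3)),
      |eval b (bind₁ (fun j => C (1 / lam) * (X (pl3 c j) - C (ctr j))) (pderiv k P) *
        pderiv l (C (1 / lam) * (X (pl3 c k) - C (ctr k))))| ≤ D / lam := by
    intro k _
    rw [map_mul, abs_mul]
    have e1 : eval b (bind₁ (fun j => C (1 / lam) * (X (pl3 c j) - C (ctr j))) (pderiv k P)) =
        eval (nq c ctr lam b) (pderiv k P) := eval_s3 c ctr lam (pderiv k P) b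
    rw [e1]
    have hD0 : 0 ≤ D := (abs_nonneg _).trans (hD 0)
    have h2 : |eval b (pderiv l (C (1 / lam) * (X (pl3 c k) - C (ctr k)) :
        MvPolynomial (Option (Fin m)) ℝ))| ≤ 1 / lam := by
      rw [pderiv_C_mul, map_sub, pderiv_C, sub_zero, map_mul, eval_C, abs_mul,
        abs_of_pos (by positivity : 0 < 1 / lam)]
      have h3 : |eval b (pderiv l (X (pl3 c k) : MvPolynomial (Option (Fin m)) ℝ))| ≤ 1 := by
        by_cases h : pl3 c k = l
        · rw [← h, pderiv_X_self, map_one, abs_one]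
        · rw [pderiv_X_of_ne h, map_zero, abs_zero]
          exact zero_le_one
      calc 1 / lam * _ ≤ 1 / lam * 1 := mul_le_mul_of_nonneg_left h3 (by positivity)
        _ = 1 / lam := mul_one _
    calc _ ≤ D * (1 / lam) := mul_le_mul (hD k) h2 (abs_nonneg _) hD0
      _ = D / lam := by ring
  refine (Finset.sum_le_sum h1).trans ?_
  rw [Finset.sum_const, Finset.card_univ, Fintype.card_fin, nsmul_eq_mul]
  norm_num

/-! ### Two samples of one line -/

variable {θ : ℝ} {S : PCl m} {P : List (Fin m) × Fin m → ℝ → ℝ → ℝ}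

/-- **A target over a closed polynomial.** `CG`: a closed polynomial; `ctr`: a closed centre; `PP`: a
polynomial in the normalised time and positions, a function of the exact point; `CG + mu * PP` is
the target at the samples up to `2 ^ (-p)`. The natural boxes are in the normalised unit box. -/
structure Rf (F : Fam m J) (c : ℕ → Fin m) (i K w₀ e₁ p : ℕ) (g : ℕ → ℕ) (B : F.Ω → Prop)
    (G : PtT F → ℕ → MvPolynomial (Option (Fin m)) ℝ) {V : Type} (zc : PtT F → V)
    (zc' : LnT F → V) (CG : V → MvPolynomial (Option (Fin m)) ℝ) (ctr : V → V3)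
    (PP : PtT F → Po) (lam mu D : ℝ) : Prop where
  cls : ∀ ω, B ω → zc (ptr F J ω) = zc' (slam F w₀ ω)
  degC : ∀ v, (CG v).totalDegree ≤ K
  depC : ∀ v, DepC c i (CG v)
  degP : ∀ y, (PP y).totalDegree ≤ K
  lam0 : 0 < lam
  mu0 : 0 ≤ mu
  pos : ∀ ω, B ω → |F.x ω (c i) - (eval (bt F ω) (CG (zc (ptr F J ω))) +
    mu * eval (nq c (ctr (zc (ptr F J ω))) lam (bt F ω)) (PP (ptr F J ω)))| ≤ 1 / 2 ^ p
  lip : ∀ ω, B ω → ∀ b : Option (Fin m) → ℝ, NBx c (G (ptr F J ω)) g w₀ (F.t ω) i b → ∀ l < i,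
    |eval b (pderiv (some (c l)) (CG (zc (ptr F J ω))))| ≤
      2 ^ (e₁ + nlp (fun j => if j < i then g j else p) l i)
  box : ∀ ω, B ω → ∀ b : Option (Fin m) → ℝ, NBx c (G (ptr F J ω)) g w₀ (F.t ω) i b →
    Bx 1 (nq c (ctr (zc (ptr F J ω))) lam b)
  der : ∀ ω, B ω → ∀ r : V3, Bx 1 r → ∀ j, |eval r (pderiv j (PP (ptr F J ω)))| ≤ D
  num : 3 * (mu * D / lam) ≤ 2 ^ e₁

/-- **The visible Taylor polynomials of two independent samples of one line and window are not
near**, with probability near one, for every law with a bounded density on the event. -/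
theorem ref_cls (hP : ThrOf (chsys m θ) S P) (c : ℕ → Fin m) {i : ℕ} (hi : 2 ≤ i) (K : ℕ)
    (a w : ℚ) (e h : ℝ) (hw : 0 ≤ w) (hwa : w ≤ a) (ha : a ≤ 1) (he : e < θ * w) (hh : 0 < h)
    (h1 : bet P c i a w + h ≤ 1) :
    ∃ δ : ℝ, 0 < δ ∧ Bas S (fun J F A => ∀ (w₀ e₁ p : ℕ) (Kv g : ℕ → ℕ)
      (G : PtT F → ℕ → MvPolynomial (Option (Fin m)) ℝ)
      (H : LnT F → ℕ → MvPolynomial (Option (Fin m)) ℝ) (V : Type) (zc : PtT F → V)
      (zc' : LnT F → V) (CG : V → MvPolynomial (Option (Fin m)) ℝ) (ctr : V → V3)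
      (PP : PtT F → Po) (lam mu D rho : ℝ),
      w₀ ≤ ⌊(w : ℝ) * J⌋₊ → e₁ + 1 ≤ ⌊e * J⌋₊ → (∀ l, Kv l ≤ K) →
      (∀ l < i, g l ≤ J) → p ≤ J → ⌊(bet P c i a w + h) * J⌋₊ + w₀ ≤ p + ⌊(a : ℝ) * J⌋₊ →
      ∀ (B : F.Ω → Prop), Sub B A → ChOK F c i Kv w₀ w₀ (e₁ + 1) g B G H →
      Rf F c i K w₀ e₁ p g B G zc zc' CG ctr PP lam mu D → mu * rho ≤ 1 / 2 ^ p →
      ∀ (q : F.Ω → ℝ) (M : ℝ), IsLaw q → 0 ≤ M →
      (∀ ω, 0 < q ω → B ω) → (∀ ω, q ω * Pe F.p A ≤ M * F.p ω) →
      Pb (glue q q (slam F w₀) (slam F w₀)) (fun x => ∀ r : V3, Bx 1 r →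
        |eval r (PP (ptr F J x.1)) - eval r (PP (ptr F J x.2))| ≤ rho) ≤
          M * Real.exp (-(δ * J))) := by
  classical
  obtain ⟨δ, hδ, hB⟩ := vis_cls hP c i K a w e h hw hwa ha he hh h1
  refine ⟨δ, hδ, Bas.mono 0 hB ?_⟩
  intro J _ F A hv w₀ e₁ p Kv g G H V zc zc' CG ctr PP lam mu D rho k1 k2 k3 k4 k5 k6 B hBA hch R
    hmu q M hq hM hqB hqM
  have hwa' : ⌊(w : ℝ) * J⌋₊ ≤ ⌊(a : ℝ) * J⌋₊ :=
    Nat.floor_le_floor (mul_le_mul_of_nonneg_right (by exact_mod_cast hwa) (Nat.cast_nonneg J))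
  -- the visible label
  obtain ⟨Gi, hGi⟩ : ∃ Gi : PtT F → MvPolynomial (Option (Fin m)) ℝ, Gi = fun y =>
      CG (zc y) + C mu * s3 c (ctr (zc y)) lam (PP y) := ⟨_, rfl⟩
  have heGi : ∀ (y : PtT F) (b : Option (Fin m) → ℝ), eval b (Gi y) =
      eval b (CG (zc y)) + mu * eval (nq c (ctr (zc y)) lam b) (PP y) := by
    intro y b
    rw [hGi]
    show eval b (CG (zc y) + C mu * s3 c (ctr (zc y)) lam (PP y)) = _
    rw [map_add, map_mul, eval_C, eval_s3]
  have hVP : VPol F c i K w₀ (e₁ + 1) p g G B Gi := by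
    refine ⟨fun y => ?_, fun y => ?_, fun ω hω => ?_, fun ω hω b hb l hl => ?_⟩
    · rw [hGi]
      refine (totalDegree_add _ _).trans (max_le (R.degC _) ?_)
      refine (totalDegree_mul _ _).trans ?_
      rw [totalDegree_C, zero_add]
      exact (deg_s3 _ _ _ _).trans (R.degP y)
    · intro b b' hn hb
      rw [heGi, heGi, R.depC _ b b' hn hb]
      have h2 := dep_s3 hi (ctr (zc y)) lam (PP y) b b' hn hb
      rw [eval_s3, eval_s3] at h2
      rw [h2]
    · rw [heGi]
      exact R.pos ω hω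
    · have e1 : pderiv (some (c l)) (Gi (ptr F J ω)) =
          pderiv (some (c l)) (CG (zc (ptr F J ω))) +
            C mu * pderiv (some (c l)) (s3 c (ctr (zc (ptr F J ω))) lam (PP (ptr F J ω))) := by
        rw [hGi]
        show pderiv (some (c l)) (CG (zc (ptr F J ω)) +
          C mu * s3 c (ctr (zc (ptr F J ω))) lam (PP (ptr F J ω))) = _
        rw [map_add, pderiv_C_mul]
      rw [e1, map_add, map_mul, eval_C]
      have h2 := R.lip ω hω b hb l hl
      have h3 := pd_s3 (c := c) (ctr := ctr (zc (ptr F J ω))) R.lam0 (b := b)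
        (fun j => R.der ω hω _ (R.box ω hω b hb) j) (some (c l))
      have h4 : |mu * eval b (pderiv (some (c l))
          (s3 c (ctr (zc (ptr F J ω))) lam (PP (ptr F J ω))))| ≤ 2 ^ e₁ := by
        rw [abs_mul, abs_of_nonneg R.mu0]
        calc mu * _ ≤ mu * (3 * (D / lam)) := mul_le_mul_of_nonneg_left h3 R.mu0
          _ = 3 * (mu * D / lam) := by ring
          _ ≤ _ := R.num
      have h5 : (2 : ℝ) ^ e₁ ≤ 2 ^ (e₁ + nlp (fun j => if j < i then g j else p) l i) :=
        pow_le_pow_right₀ one_le_two (Nat.le_add_right _ _)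
      have h6 : (2 : ℝ) ^ (e₁ + 1 + nlp (fun j => if j < i then g j else p) l i) =
          2 * 2 ^ (e₁ + nlp (fun j => if j < i then g j else p) l i) := by
        rw [show e₁ + 1 + nlp (fun j => if j < i then g j else p) l i =
          e₁ + nlp (fun j => if j < i then g j else p) l i + 1 by omega, pow_succ]
        ring
      rw [h6]
      exact (abs_add_le _ _).trans (by linarith)
  have h2 := hv w₀ w₀ (e₁ + 1) p Kv g G H Gi le_rfl (k1.trans hwa') k1 k2 k3 k4 k5 k6 B hBA hch
    hVP q M hq hM hqB hqM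
  refine le_trans ?_ h2
  rw [Pool.TC.Pb_eq_Pe, show Pool.KM7.P2 q (slam F w₀) = glue q q (slam F w₀) (slam F w₀) from rfl]
  rw [Pool.K2S.Pe_eq, Pool.K2S.Pe_eq]
  refine Finset.sum_le_sum fun x _ => ?_
  have hx0 : 0 ≤ glue q q (slam F w₀) (slam F w₀) x := glue_nonneg hq.nonneg hq.nonneg x
  by_cases h3 : ∀ r : V3, Bx 1 r → |eval r (PP (ptr F J x.1)) - eval r (PP (ptr F J x.2))| ≤ rho
  swap
  · rw [if_neg h3]
    split_ifs
    exacts [hx0, le_rfl]
  rw [if_pos h3]
  rcases hx0.eq_or_lt with h4 | h4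
  · rw [← h4]
    split_ifs <;> exact le_rfl
  obtain ⟨q1, q2, q3⟩ := (glue_pos_iff hq.nonneg hq.nonneg x).1 h4
  rw [if_pos]
  intro b hb
  have e1 : zc (ptr F J x.1) = zc (ptr F J x.2) := by
    rw [R.cls _ (hqB _ q1), R.cls _ (hqB _ q2), q3]
  rw [heGi, heGi, ← e1]
  have h5 := h3 _ (R.box x.1 (hqB _ q1) b hb)
  have e2 : eval b (CG (zc (ptr F J x.1))) +
      mu * eval (nq c (ctr (zc (ptr F J x.1))) lam b) (PP (ptr F J x.1)) -
      (eval b (CG (zc (ptr F J x.1))) +
      mu * eval (nq c (ctr (zc (ptr F J x.1))) lam b) (PP (ptr F J x.2))) =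
      mu * (eval (nq c (ctr (zc (ptr F J x.1))) lam b) (PP (ptr F J x.1)) -
        eval (nq c (ctr (zc (ptr F J x.1))) lam b) (PP (ptr F J x.2))) := by ring
  rw [e2, abs_mul, abs_of_nonneg R.mu0]
  exact (mul_le_mul_of_nonneg_left h5 R.mu0).trans hmu

end Pool.STB
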